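import Pool.Agent.C75W.P10.PZ14e.I0
import Pool.Agent.C75W.P10.PZ14e.I1
import Pool.Agent.C75W.P10.PZ14e.I2
import Pool.Agent.C75W.P10.PZ14e.I3
import Pool.Agent.C75W.P10.PZ14e.I4
import Pool.Agent.C75W.P10.PZ14e.I5
import Pool.Agent.C75W.S

/-!
MP_c75db0, Plan W: data of the cell PZ14e (written by cw12, helper51).
-/

set_option autoImplicit false
set_option maxRecDepth 100000
set_option linter.defProp false
noncomputable section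
namespace Pool.Agent.C75W.P10.PZ14e

open Pool.Agent.Helper86.C75 (Z)
open Pool.Agent.Helper86.CT (N3)
open Pool.Agent.Helper86.CX (Cx)
open Pool.Agent.Helper12.NKT (CovD Fm Le Lt Lt1 ck)
open Pool.Agent.Helper17.N9 (Kf)
open Pool.Agent.Helper91.BX (Bx Sb)
open Pool.Agent.Helper62.TVM (C9 C3)
open Pool.Agent.Helper51.FR (LE)
open Pool.Agent.Helper26.SF (Sf)
open Pool.Agent.Helper82.TST (Fr)
open Pool.Agent.Helper21.SW (S9 Mu M4 SE z9)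
open Pool.Agent.Helper6.MONO (fB)
open Pool.Agent.Helper6.MONO.W2.TY (r4T)
open Pool.Agent.Helper91.BX (PcG QB)
open Pool.Agent.Helper91.TMK.SW
open Pool.Agent.Helper21.TC
def ck : ck D = true := by decide +kernel
def ce : ceK MT C = true := by decide +kernel
def le_ok : leA MT C = true := by decide +kernel
def gb : gbT C dn = true := by decide +kernel
def r4 : r4T C.D.p C.B.A0 C.B.ra C.B.S0 C.B.rs = true := by decide +kernel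
def ic : Pool.Agent.Helper38.FI.incK C ms = true := by decide +kernel
def se : seK MT G3 (TT Pool.Agent.Helper26.TR.Tr) C E = true := by decide +kernel
theorem A2 : ItsK MT (Pool.Agent.C75W.M.IM C dn) C (nat_lit 2) (t2_0 ++ ([])) :=
  .app (itS_ok a2_0) (.nil)
theorem A3 : ItsK MT (Pool.Agent.C75W.M.IM C dn) C (nat_lit 3) (t3_0 ++ ([])) :=
  .app (itS_ok a3_0) (.nil)
theorem A5 : ItsK MT (Pool.Agent.C75W.M.IM C dn) C (nat_lit 5) (t5_0 ++ ([])) :=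
  .app (itS_ok a5_0) (.nil)
theorem A6 : ItsK MT (Pool.Agent.C75W.M.IM C dn) C (nat_lit 6) (t6_0 ++ (t6_1 ++ (t6_2 ++ (t6_3 ++ (t6_4 ++ ([])))))) :=
  .app (itS_ok a6_0) (.app (itS_ok a6_1) (.app (itS_ok a6_2) (.app (itS_ok a6_3) (.app (itS_ok a6_4) (.nil)))))
theorem A7 : ItsK MT (Pool.Agent.C75W.M.IM C dn) C (nat_lit 7) (t7_0 ++ (t7_1 ++ (t7_2 ++ (t7_3 ++ (t7_4 ++ ([])))))) :=
  .app (itS_ok a7_0) (.app (itS_ok a7_1) (.app (itS_ok a7_2) (.app (itS_ok a7_3) (.app (itS_ok a7_4) (.nil)))))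
theorem A9 : ItsK MT (Pool.Agent.C75W.M.IM C dn) C (nat_lit 9) (t9_0 ++ ([])) :=
  .app (itS_ok a9_0) (.nil)
theorem A10 : ItsK MT (Pool.Agent.C75W.M.IM C dn) C (nat_lit 10) (t10_0 ++ (t10_1 ++ ([]))) :=
  .app (itS_ok a10_0) (.app (itS_ok a10_1) (.nil))
theorem A11 : ItsK MT (Pool.Agent.C75W.M.IM C dn) C (nat_lit 11) (t11_0 ++ (t11_1 ++ ([]))) :=
  .app (itS_ok a11_0) (.app (itS_ok a11_1) (.nil))
theorem A13 : ItsK MT (Pool.Agent.C75W.M.IM C dn) C (nat_lit 13) (t13_0 ++ ([])) :=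
  .app (itS_ok a13_0) (.nil)
theorem A14 : ItsK MT (Pool.Agent.C75W.M.IM C dn) C (nat_lit 14) (t14_0 ++ (t14_1 ++ ([]))) :=
  .app (itS_ok a14_0) (.app (itS_ok a14_1) (.nil))
theorem A15 : ItsK MT (Pool.Agent.C75W.M.IM C dn) C (nat_lit 15) (t15_0 ++ (t15_1 ++ ([]))) :=
  .app (itS_ok a15_0) (.app (itS_ok a15_1) (.nil))
theorem A17 : ItsK MT (Pool.Agent.C75W.M.IM C dn) C (nat_lit 17) (t17_0 ++ ([])) :=
  .app (itS_ok a17_0) (.nil)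
theorem A18 : ItsK MT (Pool.Agent.C75W.M.IM C dn) C (nat_lit 18) (t18_0 ++ (t18_1 ++ ([]))) :=
  .app (itS_ok a18_0) (.app (itS_ok a18_1) (.nil))
theorem A19 : ItsK MT (Pool.Agent.C75W.M.IM C dn) C (nat_lit 19) (t19_0 ++ (t19_1 ++ ([]))) :=
  .app (itS_ok a19_0) (.app (itS_ok a19_1) (.nil))
theorem A20 : ItsK MT (Pool.Agent.C75W.M.IM C dn) C (nat_lit 20) (t20_0 ++ ([])) :=
  .app (itS_ok a20_0) (.nil)
theorem A34 : ItsK MT (Pool.Agent.C75W.M.IM C dn) C (nat_lit 34) (t34_0 ++ (t34_1 ++ (t34_2 ++ (t34_3 ++ ([]))))) :=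
  .app (itS_ok a34_0) (.app (itS_ok a34_1) (.app (itS_ok a34_2) (.app (itS_ok a34_3) (.nil))))
theorem A35 : ItsK MT (Pool.Agent.C75W.M.IM C dn) C (nat_lit 35) (t35_0 ++ (t35_1 ++ (t35_2 ++ (t35_3 ++ (t35_4 ++ ([])))))) :=
  .app (itS_ok a35_0) (.app (itS_ok a35_1) (.app (itS_ok a35_2) (.app (itS_ok a35_3) (.app (itS_ok a35_4) (.nil)))))
theorem A37 : ItsK MT (Pool.Agent.C75W.M.IM C dn) C (nat_lit 37) (t37_0 ++ (t37_1 ++ (t37_2 ++ (t37_3 ++ (t37_4 ++ (t37_5 ++ (t37_6 ++ ([])))))))) :=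
  .app (Pool.Agent.C75W.S.ItsK.pt (itS_ok a37_0_0) (Pool.Agent.C75W.S.ItsK.pt (itS_ok a37_0_1) (Pool.Agent.C75W.S.ItsK.pt (itS_ok a37_0_2) (Pool.Agent.C75W.S.ItsK.pt (itS_ok a37_0_3) (Pool.Agent.C75W.S.ItsK.pt (itS_ok a37_0_4) (Pool.Agent.C75W.S.ItsK.pt (itS_ok a37_0_5) (Pool.Agent.C75W.S.ItsK.pt (itS_ok a37_0_6) (Pool.Agent.C75W.S.ItsK.pt (itS_ok a37_0_7) (itS_ok a37_0_8))))))))) (.app (Pool.Agent.C75W.S.ItsK.pt (itS_ok a37_1_0) (Pool.Agent.C75W.S.ItsK.pt (itS_ok a37_1_1) (Pool.Agent.C75W.S.ItsK.pt (itS_ok a37_1_2) (Pool.Agent.C75W.S.ItsK.pt (itS_ok a37_1_3) (Pool.Agent.C75W.S.ItsK.pt (itS_ok a37_1_4) (Pool.Agent.C75W.S.ItsK.pt (itS_ok a37_1_5) (Pool.Agent.C75W.S.ItsK.pt (itS_ok a37_1_6) (Pool.Agent.C75W.S.ItsK.pt (itS_ok a37_1_7) (itS_ok a37_1_8))))))))) (.app (itS_ok a37_2) (.app (Pool.Agent.C75W.S.ItsK.pt (itS_ok a37_3_0) (Pool.Agent.C75W.S.ItsK.pt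 (itS_ok a37_3_1) (Pool.Agent.C75W.S.ItsK.pt (itS_ok a37_3_2) (Pool.Agent.C75W.S.ItsK.pt (itS_ok a37_3_3) (Pool.Agent.C75W.S.ItsK.pt (itS_ok a37_3_4) (Pool.Agent.C75W.S.ItsK.pt (itS_ok a37_3_5) (Pool.Agent.C75W.S.ItsK.pt (itS_ok a37_3_6) (Pool.Agent.C75W.S.ItsK.pt (itS_ok a37_3_7) (itS_ok a37_3_8))))))))) (.app (itS_ok a37_4) (.app (itS_ok a37_5) (.app (itS_ok a37_6) (.nil)))))))
theorem B2 : IvsK (Pool.Agent.C75W.M.IM C dn) C (nat_lit 2) (v2_0 ++ ([])) :=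
  .app (i1S_ok b2_0) (.nil)
theorem B3 : IvsK (Pool.Agent.C75W.M.IM C dn) C (nat_lit 3) (v3_0 ++ ([])) :=
  .app (i1S_ok b3_0) (.nil)
theorem B4 : IvsK (Pool.Agent.C75W.M.IM C dn) C (nat_lit 4) (v4_0 ++ ([])) :=
  .app (i1S_ok b4_0) (.nil)
theorem B5 : IvsK (Pool.Agent.C75W.M.IM C dn) C (nat_lit 5) (v5_0 ++ ([])) :=
  .app (i1S_ok b5_0) (.nil)
theorem B6 : IvsK (Pool.Agent.C75W.M.IM C dn) C (nat_lit 6) (v6_0 ++ (v6_1 ++ ([]))) :=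
  .app (i1S_ok b6_0) (.app (i1S_ok b6_1) (.nil))
theorem B7 : IvsK (Pool.Agent.C75W.M.IM C dn) C (nat_lit 7) (v7_0 ++ (v7_1 ++ ([]))) :=
  .app (i1S_ok b7_0) (.app (i1S_ok b7_1) (.nil))
theorem B8 : IvsK (Pool.Agent.C75W.M.IM C dn) C (nat_lit 8) (v8_0 ++ ([])) :=
  .app (i1S_ok b8_0) (.nil)
theorem B9 : IvsK (Pool.Agent.C75W.M.IM C dn) C (nat_lit 9) (v9_0 ++ ([])) :=
  .app (i1S_ok b9_0) (.nil)
theorem B10 : IvsK (Pool.Agent.C75W.M.IM C dn) C (nat_lit 10) (v10_0 ++ (v10_1 ++ ([]))) :=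
  .app (i1S_ok b10_0) (.app (i1S_ok b10_1) (.nil))
theorem B11 : IvsK (Pool.Agent.C75W.M.IM C dn) C (nat_lit 11) (v11_0 ++ (v11_1 ++ ([]))) :=
  .app (i1S_ok b11_0) (.app (i1S_ok b11_1) (.nil))
theorem B12 : IvsK (Pool.Agent.C75W.M.IM C dn) C (nat_lit 12) (v12_0 ++ ([])) :=
  .app (i1S_ok b12_0) (.nil)
theorem B13 : IvsK (Pool.Agent.C75W.M.IM C dn) C (nat_lit 13) (v13_0 ++ ([])) :=
  .app (i1S_ok b13_0) (.nil)
theorem B14 : IvsK (Pool.Agent.C75W.M.IM C dn) C (nat_lit 14) (v14_0 ++ (v14_1 ++ ([]))) :=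
  .app (i1S_ok b14_0) (.app (i1S_ok b14_1) (.nil))
theorem B15 : IvsK (Pool.Agent.C75W.M.IM C dn) C (nat_lit 15) (v15_0 ++ (v15_1 ++ ([]))) :=
  .app (i1S_ok b15_0) (.app (i1S_ok b15_1) (.nil))
theorem B16 : IvsK (Pool.Agent.C75W.M.IM C dn) C (nat_lit 16) (v16_0 ++ ([])) :=
  .app (i1S_ok b16_0) (.nil)
theorem B17 : IvsK (Pool.Agent.C75W.M.IM C dn) C (nat_lit 17) (v17_0 ++ ([])) :=
  .app (i1S_ok b17_0) (.nil)
theorem B18 : IvsK (Pool.Agent.C75W.M.IM C dn) C (nat_lit 18) (v18_0 ++ (v18_1 ++ ([]))) :=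
  .app (i1S_ok b18_0) (.app (i1S_ok b18_1) (.nil))
theorem B19 : IvsK (Pool.Agent.C75W.M.IM C dn) C (nat_lit 19) (v19_0 ++ (v19_1 ++ ([]))) :=
  .app (i1S_ok b19_0) (.app (i1S_ok b19_1) (.nil))
theorem B20 : IvsK (Pool.Agent.C75W.M.IM C dn) C (nat_lit 20) (v20_0 ++ ([])) :=
  .app (i1S_ok b20_0) (.nil)
theorem B34 : IvsK (Pool.Agent.C75W.M.IM C dn) C (nat_lit 34) (v34_0 ++ (v34_1 ++ (v34_2 ++ ([])))) :=
  .app (i1S_ok b34_0) (.app (i1S_ok b34_1) (.app (i1S_ok b34_2) (.nil)))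
theorem B35 : IvsK (Pool.Agent.C75W.M.IM C dn) C (nat_lit 35) (v35_0 ++ (v35_1 ++ (v35_2 ++ ([])))) :=
  .app (i1S_ok b35_0) (.app (i1S_ok b35_1) (.app (i1S_ok b35_2) (.nil)))
theorem B36 : IvsK (Pool.Agent.C75W.M.IM C dn) C (nat_lit 36) (v36_0 ++ (v36_1 ++ (v36_2 ++ ([])))) :=
  .app (i1S_ok b36_0) (.app (i1S_ok b36_1) (.app (i1S_ok b36_2) (.nil)))
theorem B37 : IvsK (Pool.Agent.C75W.M.IM C dn) C (nat_lit 37) (v37_0 ++ (v37_1 ++ (v37_2 ++ ([])))) :=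
  .app (i1S_ok b37_0) (.app (i1S_ok b37_1) (.app (i1S_ok b37_2) (.nil)))
theorem itA : ItsA MT (Pool.Agent.C75W.M.IM C dn) C it :=
  .cons A2 (.cons A3 (.cons A5 (.cons A6 (.cons A7 (.cons A9 (.cons A10 (.cons A11 (.cons A13 (.cons A14 (.cons A15 (.cons A17 (.cons A18 (.cons A19 (.cons A20 (.cons A34 (.cons A35 (.cons A37 (.nil))))))))))))))))))
theorem ivA : IvsA (Pool.Agent.C75W.M.IM C dn) C i1 :=
  .cons B2 (.cons B3 (.cons B4 (.cons B5 (.cons B6 (.cons B7 (.cons B8 (.cons B9 (.cons B10 (.cons B11 (.cons B12 (.cons B13 (.cons B14 (.cons B15 (.cons B16 (.cons B17 (.cons B18 (.cons B19 (.cons B20 (.cons B34 (.cons B35 (.cons B36 (.cons B37 (.nil)))))))))))))))))))))))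
theorem cel : Pool.Agent.C75W.M.CelM C dn ms E := ⟨ck, ce, le_ok, gb, itA, ivA, ic, se⟩
theorem pc (m : ℝ) :
    PcG (QB (nat_lit 10)) (nat_lit 10) m (nat_lit 1070150335641031) (nat_lit 1070150335641031) (nat_lit 6) (nat_lit 0) (nat_lit 0) (nat_lit 0) ⟨false, (Z.p (nat_lit 0)), (Z.p (nat_lit 0)), (Z.p (nat_lit 0))⟩ (nat_lit 12666373951980) ⟨false, (Z.p (nat_lit 0)), (Z.p (nat_lit 0)), (Z.p (nat_lit 0))⟩ (nat_lit 23925373020406) :=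
  Pool.Agent.C75W.M.CelM_pc cel r4 (fun _ _ _ h _ => h)

end Pool.Agent.C75W.P10.PZ14e
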